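import Pool.Agent.Lib_helper40.MC.T10a.Q
import Pool.Agent.Lib_helper40.MC.T10a.T

/-!
# N = 10, t = 2: all checks
-/

set_option autoImplicit false
set_option maxRecDepth 100000

namespace Pool.Agent.MC10a

open Pool.Agent.KC72 Pool.Agent.MC

theorem c10a_0 : NumX c10a c10a_t c10a_ll.length := by decide +kernel

theorem c10a_om : xm c10a.kb c10a.ko (c10a.m * c10a.N) c10a.Om = true := by decide +kernel

theorem c10a_b : cB c10a = true := by decide +kernel

theorem c10a_r0 : blk (cR c10a) c10a.rels 60 0 = true := by decide +kernel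

theorem c10a_r1 : blk (cR c10a) c10a.rels 60 1 = true := by decide +kernel

theorem c10a_r2 : blk (cR c10a) c10a.rels 60 2 = true := by decide +kernel

theorem c10a_r3 : blk (cR c10a) c10a.rels 60 3 = true := by decide +kernel

theorem c10a_r4 : blk (cR c10a) c10a.rels 60 4 = true := by decide +kernel

theorem c10a_r5 : blk (cR c10a) c10a.rels 60 5 = true := by decide +kernel

theorem c10a_r6 : blk (cR c10a) c10a.rels 60 6 = true := by decide +kernel

theorem c10a_r' : ∀ k < 7, blk (cR c10a) c10a.rels 60 k = true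
  | 0, _ => c10a_r0
  | 1, _ => c10a_r1
  | 2, _ => c10a_r2
  | 3, _ => c10a_r3
  | 4, _ => c10a_r4
  | 5, _ => c10a_r5
  | 6, _ => c10a_r6
  | k + 7, h => absurd h (by omega)

theorem c10a_g : allI (fun c g => cG c10a.DG c10a_t.B c10a_t.MA c10a_t.P2 c10a_t.MB c g) c10a.G 0 = true := by decide +kernel

theorem c10a_g' : c10a.toCert.chk3' = true := by decide +kernel

theorem c10a_k1 : (c10a.cls.take c10a.m).map (prF c10a_t.p c10a.n c10a.r) = c10a_t.PR := by decide +kernel

theorem c10a_k2 : (c10a.cls.take c10a.m).map (pkw (Int.ofNat c10a_t.Z) (Int.ofNat (Nat.pow c10a_t.Z c10a.n)) c10a.r) = c10a_t.PM := by decide +kernel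

theorem c10a_k3 : c10a_t.P2.map (fun x => pmb (Int.ofNat c10a_t.B) x.1 x.2 (c10a.cls.take c10a.m)) = c10a_t.MB := by decide +kernel

theorem c10a_e : c10a.cls.all (fun e => bdE c10a_t.MA c10a.n e.1.2 && bdE c10a_t.MA c10a.n e.2.2) = true := by decide +kernel

theorem c10a_xq : c10a_t.XQ.all (fun X => X.all (xm c10a_t.a c10a_t.d c10a_t.S)) = true := by decide +kernel

theorem c10a_xt : c10a_t.XT.all (fun X => X.all (xm c10a_t.a' c10a_t.d' c10a_t.K)) = true := by decide +kernel

theorem c10a_d0_0 : blk (cD c10a c10a_v0) c10a.Q 40 0 = true := by decide +kernel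

theorem c10a_d0_1 : blk (cD c10a c10a_v0) c10a.Q 40 1 = true := by decide +kernel

theorem c10a_d0_2 : blk (cD c10a c10a_v0) c10a.Q 40 2 = true := by decide +kernel

theorem c10a_d0_3 : blk (cD c10a c10a_v0) c10a.Q 40 3 = true := by decide +kernel

theorem c10a_d0_' : ∀ k < 4, blk (cD c10a c10a_v0) c10a.Q 40 k = true
  | 0, _ => c10a_d0_0
  | 1, _ => c10a_d0_1
  | 2, _ => c10a_d0_2
  | 3, _ => c10a_d0_3
  | k + 4, h => absurd h (by omega)

theorem c10a_x : allI (fun s L => cL c10a c10a_t (c10a_vl.getD s []) s L) c10a_ll 0 = true := by decide +kernel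

/-- all checks -/
theorem c10a_ok : ROkX c10a c10a_ll :=
  rOkX_of (A := c10a_t) (VL := c10a_vl) (l4 := 60) (n4 := 7) (lQ := 40) (nQ := 4) (lT := 40) (nT := 6) rfl c10a_0 c10a_om c10a_b
    (by decide) (by decide +kernel) c10a_r' c10a_g c10a_g' ⟨c10a_k1, c10a_k2, c10a_k3⟩ c10a_e c10a_xq c10a_xt (by decide) (by decide +kernel) c10a_q'
    (by decide) (by decide +kernel) c10a_t' c10a_x
    (List.forall_mem_cons.2 ⟨c10a_d0_', (List.forall_mem_nil _)⟩)

end Pool.Agent.MC10a
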